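import Pool.Agent.Helper37.SY.Defs

/-!
# SY block MV1: the number of coprime points in a convex region
-/

set_option autoImplicit false

namespace Pool.Agent.Helper67.SY

open MeasureTheory Filter Topology
open Pool.Agent.Helper59.Pack (P2)
open scoped Pointwise ArithmeticFunction.Moebius ArithmeticFunction.zeta

/-- the vector with integer coordinates -/
def vc (p : ℤ × ℤ) : P2 := ![(p.1 : ℝ), (p.2 : ℝ)]

lemma vc_inj : Function.Injective vc := by
  intro p q h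
  have h0 := congrFun h 0
  have h1 := congrFun h 1
  simp only [vc, Matrix.cons_val_zero, Matrix.cons_val_one, Int.cast_inj] at h0 h1
  exact Prod.ext h0 h1

/-- the lattice points of the dilate -/
def Pt (s : Set P2) (T : ℝ) : Set (ℤ × ℤ) := {p | vc p ∈ T • s}

lemma finite_pt {s : Set P2} (hb : Bornology.IsBounded s) (T : ℝ) : (Pt s T).Finite := by
  obtain ⟨R, hR⟩ := (hb.smul₀ T).exists_norm_le
  refine ((Set.finite_Icc (-⌈R⌉) ⌈R⌉).prod (Set.finite_Icc (-⌈R⌉) ⌈R⌉)).subset ?_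
  intro p hp
  have h := hR _ hp
  have h0 := (norm_le_pi_norm (vc p) 0).trans h
  have h1 := (norm_le_pi_norm (vc p) 1).trans h
  simp only [vc, Matrix.cons_val_zero, Matrix.cons_val_one, Real.norm_eq_abs] at h0 h1
  have hc := Int.le_ceil R
  rw [abs_le] at h0 h1
  refine Set.mem_prod.mpr ⟨Set.mem_Icc.mpr ⟨?_, ?_⟩, Set.mem_Icc.mpr ⟨?_, ?_⟩⟩
  · have : (-(⌈R⌉ : ℤ) : ℝ) ≤ (p.1 : ℝ) := by linarith
    exact_mod_cast this
  · have : (p.1 : ℝ) ≤ (⌈R⌉ : ℝ) := by linarith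
    exact_mod_cast this
  · have : (-(⌈R⌉ : ℤ) : ℝ) ≤ (p.2 : ℝ) := by linarith
    exact_mod_cast this
  · have : (p.2 : ℝ) ≤ (⌈R⌉ : ℝ) := by linarith
    exact_mod_cast this

lemma mem_L {v : P2} : v ∈ Submodule.span ℤ (Set.range (Pi.basisFun ℝ (Fin 2))) ↔ ∃ p, vc p = v := by
  rw [Module.Basis.mem_span_iff_repr_mem]
  simp only [Pi.basisFun_repr, Set.mem_range, eq_intCast]
  constructor
  · intro h
    obtain ⟨a, ha⟩ := h 0
    obtain ⟨b, hb⟩ := h 1
    refine ⟨(a, b), ?_⟩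
    funext i
    fin_cases i
    · exact ha
    · exact hb
  · rintro ⟨p, rfl⟩ i
    fin_cases i
    · exact ⟨p.1, rfl⟩
    · exact ⟨p.2, rfl⟩

lemma card_pt {s : Set P2} {x : ℝ} (hx : 0 < x) :
    Nat.card ↑(s ∩ x⁻¹ • (Submodule.span ℤ (Set.range (Pi.basisFun ℝ (Fin 2))) : Set P2)) = Nat.card (Pt s x) := by
  symm
  have hx0 : x ≠ 0 := hx.ne'
  refine Nat.card_eq_of_bijective (fun p : Pt s x => (⟨x⁻¹ • vc p.1, ?_, ?_⟩ :
    ↑(s ∩ x⁻¹ • (Submodule.span ℤ (Set.range (Pi.basisFun ℝ (Fin 2))) : Set P2)))) ⟨?_, ?_⟩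
  · exact (Set.mem_smul_set_iff_inv_smul_mem₀ hx0 _ _).mp p.2
  · exact Set.smul_mem_smul_set (mem_L.mpr ⟨p.1, rfl⟩)
  · intro p q h
    have h1 := congrArg Subtype.val h
    exact Subtype.ext (vc_inj (smul_right_injective P2 (inv_ne_zero hx0) h1))
  · rintro ⟨v, hv, hv'⟩
    obtain ⟨l, hl, rfl⟩ := hv'
    obtain ⟨p, rfl⟩ := mem_L.mp hl
    refine ⟨⟨p, ?_⟩, rfl⟩
    exact (Set.mem_smul_set_iff_inv_smul_mem₀ hx0 _ _).mpr hv

/-- the number of lattice points -/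
lemma tendsto_pt {s : Set P2} (hc : Convex ℝ s) (hb : Bornology.IsBounded s) (hs : IsClosed s) (h0 : (0 : P2) ∈ s) :
    Tendsto (fun T : ℝ => (Nat.card (Pt s T) : ℝ) / T ^ 2) atTop (𝓝 (volume.real s)) := by
  have h := tendsto_card_div_pow_atTop_volume' s hb hs.measurableSet (hc.addHaar_frontier volume) (by
    intro x y hx hxy
    rintro _ ⟨v, hv, rfl⟩
    have hy : 0 < y := hx.trans_le hxy
    refine ⟨(x / y) • v, hc.smul_mem_of_zero_mem h0 hv ⟨by positivity, (div_le_one hy).mpr hxy⟩, ?_⟩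
    show y • (x / y) • v = x • v
    rw [smul_smul, mul_div_cancel₀ _ hy.ne'])
  refine h.congr' ?_
  filter_upwards [eventually_gt_atTop 0] with x hx
  rw [Fintype.card_fin]
  congr 2
  exact card_pt hx

lemma card_dvd {s : Set P2} (hb : Bornology.IsBounded s) {T : ℝ} {d : ℕ} (hd : 0 < d) :
    ((finite_pt hb T).toFinset.filter fun p : ℤ × ℤ => (d : ℤ) ∣ p.1 ∧ (d : ℤ) ∣ p.2).card = Nat.card (Pt s (T / d)) := by
  classical
  have hd0 : (d : ℝ) ≠ 0 := by exact_mod_cast hd.ne'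
  have hd' : (d : ℤ) ≠ 0 := by exact_mod_cast hd.ne'
  have hmem : ∀ p : ℤ × ℤ, vc ((d : ℤ) * p.1, (d : ℤ) * p.2) ∈ T • s ↔ vc p ∈ (T / d) • s := by
    intro p
    have e : vc ((d : ℤ) * p.1, (d : ℤ) * p.2) = (d : ℝ) • vc p := by
      funext i
      fin_cases i
      · show (((d : ℤ) * p.1 : ℤ) : ℝ) = (d : ℝ) * (p.1 : ℝ)
        push_cast
        rfl
      · show (((d : ℤ) * p.2 : ℤ) : ℝ) = (d : ℝ) * (p.2 : ℝ)
        push_cast
        rfl
    rw [e]
    constructor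
    · rintro ⟨v, hv, h⟩
      refine ⟨v, hv, ?_⟩
      have h1 : (d : ℝ)⁻¹ • (T • v) = (d : ℝ)⁻¹ • ((d : ℝ) • vc p) := by
        congr 1
      rw [smul_smul, smul_smul, inv_mul_cancel₀ hd0, one_smul] at h1
      rw [← h1]
      show (T / d) • v = _
      rw [div_eq_inv_mul]
    · rintro ⟨v, hv, h⟩
      refine ⟨v, hv, ?_⟩
      rw [← h]
      show T • v = (d : ℝ) • (T / d) • v
      rw [smul_smul, mul_div_cancel₀ _ hd0]
  have h1 : ((finite_pt hb T).toFinset.filter fun p : ℤ × ℤ => (d : ℤ) ∣ p.1 ∧ (d : ℤ) ∣ p.2) =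
      (finite_pt hb (T / d)).toFinset.image fun p => ((d : ℤ) * p.1, (d : ℤ) * p.2) := by
    ext p
    rw [Finset.mem_filter, Finset.mem_image, Set.Finite.mem_toFinset]
    constructor
    · rintro ⟨hp, ⟨a, ha⟩, ⟨b, hb'⟩⟩
      refine ⟨(a, b), ?_, Prod.ext ha.symm hb'.symm⟩
      rw [Set.Finite.mem_toFinset]
      refine (hmem (a, b)).mp ?_
      have : ((d : ℤ) * (a, b).1, (d : ℤ) * (a, b).2) = p := Prod.ext ha.symm hb'.symm
      rw [this]
      exact hp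
    · rintro ⟨q, hq, rfl⟩
      rw [Set.Finite.mem_toFinset] at hq
      exact ⟨(hmem q).mpr hq, ⟨q.1, rfl⟩, ⟨q.2, rfl⟩⟩
  rw [h1, Finset.card_image_of_injective]
  · exact (Nat.subtype_card _ fun x => by rw [Set.Finite.mem_toFinset]).symm
  · intro p q h
    simp only [Prod.mk.injEq, mul_eq_mul_left_iff, hd', or_false] at h
    exact Prod.ext h.1 h.2

lemma sum_mu {D : ℕ} (hD : 0 < D) (p : ℤ × ℤ) :
    ∑ d ∈ D.divisors.filter (fun d : ℕ => (d : ℤ) ∣ p.1 ∧ (d : ℤ) ∣ p.2), (μ d : ℤ) =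
      if Nat.gcd D (Int.gcd p.1 p.2) = 1 then 1 else 0 := by
  have h1 : (D.divisors.filter fun d : ℕ => (d : ℤ) ∣ p.1 ∧ (d : ℤ) ∣ p.2) = (Nat.gcd D (Int.gcd p.1 p.2)).divisors := by
    ext d
    rw [Finset.mem_filter, Nat.mem_divisors, Nat.mem_divisors, Nat.dvd_gcd_iff, Int.gcd, Nat.dvd_gcd_iff, Int.natCast_dvd,
      Int.natCast_dvd]
    have h2 : D.gcd (p.1.natAbs.gcd p.2.natAbs) ≠ 0 := (Nat.gcd_pos_of_pos_left _ hD).ne'
    have h3 : D ≠ 0 := hD.ne'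
    tauto
  rw [h1, ← ArithmeticFunction.coe_mul_zeta_apply, ArithmeticFunction.moebius_mul_coe_zeta, ArithmeticFunction.one_apply]

/-- the sieve -/
theorem count_le {s : Set P2} (hb : Bornology.IsBounded s) (T : ℝ) {D : ℕ} (hD : 0 < D) :
    (Nat.card {p : ℤ × ℤ // IsCoprime p.1 p.2 ∧ vc p ∈ T • s} : ℤ) ≤ ∑ d ∈ D.divisors, (μ d : ℤ) * Nat.card (Pt s (T / d)) := by
  classical
  have h1 : Nat.card {p : ℤ × ℤ // IsCoprime p.1 p.2 ∧ vc p ∈ T • s} =
      ((finite_pt hb T).toFinset.filter fun p : ℤ × ℤ => IsCoprime p.1 p.2).card := by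
    refine Nat.subtype_card _ fun x => ?_
    rw [Finset.mem_filter, Set.Finite.mem_toFinset]
    exact and_comm
  have h2 : ∑ d ∈ D.divisors, (μ d : ℤ) * Nat.card (Pt s (T / d)) =
      ∑ p ∈ (finite_pt hb T).toFinset, if Nat.gcd D (Int.gcd p.1 p.2) = 1 then 1 else 0 := by
    have h3 : ∀ d ∈ D.divisors, (μ d : ℤ) * Nat.card (Pt s (T / d)) =
        ∑ p ∈ (finite_pt hb T).toFinset, if (d : ℤ) ∣ p.1 ∧ (d : ℤ) ∣ p.2 then (μ d : ℤ) else 0 := by
      intro d hd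
      rw [← card_dvd hb (Nat.pos_of_mem_divisors hd), ← Finset.sum_filter, Finset.sum_const, nsmul_eq_mul, mul_comm]
    rw [Finset.sum_congr rfl h3, Finset.sum_comm]
    refine Finset.sum_congr rfl fun p _ => ?_
    rw [← sum_mu hD p, Finset.sum_filter]
  rw [h1, h2, Finset.card_filter]
  push_cast
  refine Finset.sum_le_sum fun p _ => ?_
  by_cases h : IsCoprime p.1 p.2
  · have h4 : Nat.gcd D (Int.gcd p.1 p.2) = 1 := by
      rw [Int.isCoprime_iff_gcd_eq_one.mp h]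
      exact Nat.gcd_one_right D
    rw [if_pos h, if_pos h4]
  · rw [if_neg h]
    split_ifs <;> norm_num

/-- the function `1 / d ^ 2` -/
noncomputable def sq : ArithmeticFunction ℝ := ⟨fun d => 1 / (d : ℝ) ^ 2, by simp⟩

lemma sq_mult : sq.IsMultiplicative := by
  refine ⟨by simp [sq], fun {m n} _ => ?_⟩
  show 1 / ((m * n : ℕ) : ℝ) ^ 2 = 1 / (m : ℝ) ^ 2 * (1 / (n : ℝ) ^ 2)
  push_cast
  rw [mul_pow, one_div_mul_one_div]

/-- the Euler product -/
lemma tendsto_prod : Tendsto (fun n : ℕ => ∏ p ∈ n.primesBelow, (1 - 1 / (p : ℝ) ^ 2)) atTop (𝓝 (6 / Real.pi ^ 2)) := by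
  let f : ℕ →*₀ ℝ :=
    { toFun := fun n => 1 / (n : ℝ) ^ 2
      map_zero' := by simp
      map_one' := by simp
      map_mul' := fun m n => by
        push_cast
        rw [mul_pow, one_div_mul_one_div] }
  have hs : Summable (‖f ·‖) := by
    have h := hasSum_zeta_two.summable
    refine h.congr fun n => ?_
    show 1 / (n : ℝ) ^ 2 = ‖1 / (n : ℝ) ^ 2‖
    rw [Real.norm_of_nonneg (by positivity)]
  have h := EulerProduct.eulerProduct_completely_multiplicative hs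
  have h1 : ∑' n, f n = Real.pi ^ 2 / 6 := hasSum_zeta_two.tsum_eq
  rw [h1] at h
  have h2 := h.inv₀ (by positivity)
  rw [inv_div] at h2
  refine h2.congr fun n => ?_
  rw [← Finset.prod_inv_distrib]
  refine Finset.prod_congr rfl fun p _ => ?_
  rw [inv_inv]
  rfl

/-- BLOCK MV1 (coprime points) -/
theorem coprime_count {Ω : Set P2} (hc : Convex ℝ Ω) (hb : Bornology.IsBounded Ω)
    (h0 : (0 : P2) ∈ interior Ω) {c : ℝ}
    (hcΩ : 6 / Real.pi ^ 2 * (volume Ω).toReal < c) :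
    ∀ᶠ T : ℝ in Filter.atTop,
      (Nat.card {p : ℤ × ℤ // IsCoprime p.1 p.2 ∧ (![(p.1 : ℝ), (p.2 : ℝ)] : P2) ∈ T • Ω} : ℝ) ≤
        c * T ^ 2 := by
  classical
  obtain ⟨s, hs⟩ : ∃ s, s = closure Ω := ⟨_, rfl⟩
  have hsc : Convex ℝ s := by rw [hs]; exact hc.closure
  have hsb : Bornology.IsBounded s := by rw [hs]; exact hb.closure
  have hscl : IsClosed s := by rw [hs]; exact isClosed_closure
  have hΩs : Ω ⊆ s := by rw [hs]; exact subset_closure
  have hs0 : (0 : P2) ∈ s := hΩs (interior_subset h0)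
  have hvol : volume.real s = (volume Ω).toReal := by
    have h1 : volume s = volume Ω := by
      refine le_antisymm ?_ (measure_mono hΩs)
      rw [hs, closure_eq_self_union_frontier]
      refine (measure_union_le _ _).trans ?_
      rw [hc.addHaar_frontier volume, add_zero]
    rw [Measure.real, h1]
  -- the choice of the primorial
  have hlim : Tendsto (fun n : ℕ => (volume Ω).toReal * ∏ p ∈ n.primesBelow, (1 - 1 / (p : ℝ) ^ 2)) atTop
      (𝓝 ((volume Ω).toReal * (6 / Real.pi ^ 2))) := tendsto_prod.const_mul _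
  obtain ⟨n, hn⟩ := (hlim.eventually_lt_const (by rw [mul_comm]; exact hcΩ)).exists
  obtain ⟨D, hDe⟩ : ∃ D : ℕ, D = ∏ p ∈ n.primesBelow, p := ⟨_, rfl⟩
  have hpr : ∀ p ∈ n.primesBelow, p.Prime := fun p hp => Nat.prime_of_mem_primesBelow hp
  have hDpos : 0 < D := by
    rw [hDe]
    exact Finset.prod_pos fun p hp => (hpr p hp).pos
  have hDsq : Squarefree D := by
    rw [hDe]
    refine Finset.squarefree_prod_of_pairwise_isCoprime (fun p hp q hq hpq => ?_) fun p hp => (hpr p hp).squarefree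
    simp only [Function.onFun, ← Nat.coprime_iff_isRelPrime]
    exact (Nat.coprime_primes (hpr p hp) (hpr q hq)).mpr hpq
  have hDf : D.primeFactors = n.primesBelow := by
    rw [hDe]
    exact Nat.primeFactors_prod hpr
  have hprod : ∑ d ∈ D.divisors, (μ d : ℝ) * (1 / (d : ℝ) ^ 2) = ∏ p ∈ n.primesBelow, (1 - 1 / (p : ℝ) ^ 2) := by
    have h := ArithmeticFunction.IsMultiplicative.prodPrimeFactors_one_sub_of_squarefree sq sq_mult hDsq
    rw [hDf] at h
    exact h.symm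
  have hpt := tendsto_pt hsc hsb hscl hs0
  have hterm : ∀ d ∈ D.divisors, Tendsto (fun T : ℝ => (μ d : ℝ) * ((Nat.card (Pt s (T / d)) : ℝ) / T ^ 2)) atTop
      (𝓝 ((μ d : ℝ) * ((volume Ω).toReal * (1 / (d : ℝ) ^ 2)))) := by
    intro d hd
    have hd0 : (0 : ℝ) < d := by exact_mod_cast Nat.pos_of_mem_divisors hd
    refine Tendsto.const_mul _ ?_
    have h1 := (hpt.comp (tendsto_id.atTop_div_const hd0)).mul_const (1 / (d : ℝ) ^ 2)
    rw [hvol] at h1
    refine h1.congr' ?_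
    filter_upwards [eventually_gt_atTop 0] with T hT
    show (Nat.card (Pt s (T / d)) : ℝ) / (T / d) ^ 2 * (1 / (d : ℝ) ^ 2) = _
    rw [div_pow]
    field_simp
  have hsum := tendsto_finsetSum D.divisors hterm
  have hlast : ∑ d ∈ D.divisors, (μ d : ℝ) * ((volume Ω).toReal * (1 / (d : ℝ) ^ 2)) < c := by
    have h1 : ∑ d ∈ D.divisors, (μ d : ℝ) * ((volume Ω).toReal * (1 / (d : ℝ) ^ 2)) =
        (volume Ω).toReal * ∏ p ∈ n.primesBelow, (1 - 1 / (p : ℝ) ^ 2) := by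
      rw [← hprod, Finset.mul_sum]
      refine Finset.sum_congr rfl fun d _ => ?_
      ring
    rw [h1]
    exact hn
  filter_upwards [hsum.eventually_lt_const hlast, eventually_gt_atTop 0] with T hT hT0
  have h1 : Nat.card {p : ℤ × ℤ // IsCoprime p.1 p.2 ∧ (![(p.1 : ℝ), (p.2 : ℝ)] : P2) ∈ T • Ω} ≤
      Nat.card {p : ℤ × ℤ // IsCoprime p.1 p.2 ∧ vc p ∈ T • s} := by
    have hfin : Finite {p : ℤ × ℤ // IsCoprime p.1 p.2 ∧ vc p ∈ T • s} :=
      Set.Finite.to_subtype ((finite_pt hsb T).subset fun p hp => hp.2)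
    refine Nat.card_le_card_of_injective (fun p => ⟨p.1, p.2.1, Set.smul_set_mono hΩs p.2.2⟩) fun p q h => ?_
    have h' := congrArg (fun r : {p : ℤ × ℤ // IsCoprime p.1 p.2 ∧ vc p ∈ T • s} => r.1) h
    exact Subtype.ext h'
  have h2 := count_le hsb T hDpos
  have h3 : ((Nat.card {p : ℤ × ℤ // IsCoprime p.1 p.2 ∧ vc p ∈ T • s} : ℤ) : ℝ) ≤
      ((∑ d ∈ D.divisors, (μ d : ℤ) * Nat.card (Pt s (T / d)) : ℤ) : ℝ) := by exact_mod_cast h2
  push_cast at h3
  have h4 : ∑ d ∈ D.divisors, (μ d : ℝ) * ((Nat.card (Pt s (T / d)) : ℝ) / T ^ 2) =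
      (∑ d ∈ D.divisors, (μ d : ℝ) * (Nat.card (Pt s (T / d)) : ℝ)) / T ^ 2 := by
    rw [Finset.sum_div]
    refine Finset.sum_congr rfl fun d _ => ?_
    ring
  rw [h4, div_lt_iff₀ (by positivity)] at hT
  have h5 : (Nat.card {p : ℤ × ℤ // IsCoprime p.1 p.2 ∧ (![(p.1 : ℝ), (p.2 : ℝ)] : P2) ∈ T • Ω} : ℝ) ≤
      (Nat.card {p : ℤ × ℤ // IsCoprime p.1 p.2 ∧ vc p ∈ T • s} : ℝ) := by exact_mod_cast h1
  linarith

end Pool.Agent.Helper67.SY
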